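import Pool.Agent.Helper77.SUBK.SheetP

/-!
Project SUBK, row BASM: a reduced basis of the lattice of a box (port of helper15's row BAS).
-/

set_option autoImplicit false

namespace Pool.Agent.Helper97.SUBK

open Pool.Agent.Helper70.SUB Pool.Agent.Helper77.SUBK Finset Matrix

/-- real matrices as complex ones -/
noncomputable def cR {ι : Type} [Fintype ι] [DecidableEq ι] :
    Matrix ι ι ℝ →+* Matrix ι ι ℂ := Complex.ofRealHom.mapMatrix

theorem cR_apply {ι : Type} [Fintype ι] [DecidableEq ι] (M : Matrix ι ι ℝ) (i j : ι) :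
    cR M i j = ((M i j : ℝ) : ℂ) := rfl

theorem cR_det {ι : Type} [Fintype ι] [DecidableEq ι] (M : Matrix ι ι ℝ) :
    (cR M).det = ((M.det : ℝ) : ℂ) := by
  exact (RingHom.map_det Complex.ofRealHom M).symm

theorem cR_inv {ι : Type} [Fintype ι] [DecidableEq ι] (M : Matrix ι ι ℝ) (h : M.det ≠ 0) :
    (cR M)⁻¹ = cR M⁻¹ := by
  apply Matrix.inv_eq_right_inv
  rw [← map_mul, Matrix.mul_nonsing_inv _ (isUnit_iff_ne_zero.2 h), map_one]

section

variable {S : Finset ℕ} {M : Type} [Field M] [NumberField M] (P : PF S M)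

/-- the embedding of the matrices over `M` -/
noncomputable def cE {ι : Type} [Fintype ι] [DecidableEq ι] :
    Matrix ι ι M →+* Matrix ι ι ℂ := P.emb.mapMatrix

theorem cE_apply {ι : Type} [Fintype ι] [DecidableEq ι] (X : Matrix ι ι M) (i j : ι) :
    cE P X i j = P.emb (X i j) := rfl

theorem cE_det {ι : Type} [Fintype ι] [DecidableEq ι] (X : Matrix ι ι M) :
    (cE P X).det = P.emb X.det := by
  exact (RingHom.map_det P.emb X).symm

theorem cE_mM {N : ℕ} (W : Matrix (Fin N) (Fin N) ℤ) : cE P (mM M W) = cR (mR W) := by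
  ext i j
  simp [cE_apply, cR_apply]

end

theorem BASM (hAV : ST_AV) (hLATPM : ST_LATPM) (hREDB : ST_REDB) : ST_BASM := by
  classical
  intro M _ _ S P N A K hS hdet hRt hK
  obtain ⟨C1, hC1, hL⟩ := hLATPM M S P N A K hS hdet hRt hK
  obtain ⟨C2, hC2, hR⟩ := hREDB N
  have hmem : ∀ p ∈ S, some p ∈ plc S := fun p hp => mem_some hp
  have hnone : (none : Option ℕ) ∈ plc S := mem_none
  refine ⟨max C1 C2, le_max_of_le_left hC1, ?_⟩
  intro s hs hsK
  obtain ⟨B, hB0, hBS, hBle, hBinv, hBx⟩ := hL s hs hsK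
  have hs0 : ∀ i, 0 < s none i := fun i => hs none hnone i
  have hA0 : (A none).det ≠ 0 := hdet none hnone
  -- the real matrix
  set D : Matrix (Fin N) (Fin N) ℝ := Matrix.diagonal fun i => s none i with hD
  set D' : Matrix (Fin N) (Fin N) ℝ := Matrix.diagonal fun i => (s none i)⁻¹ with hD'
  have hDD2 : D * D' = 1 := by
    rw [hD, hD', Matrix.diagonal_mul_diagonal, ← Matrix.diagonal_one]
    congr 1
    funext i
    exact mul_inv_cancel₀ (hs0 i).ne'
  set E : Matrix (Fin N) (Fin N) ℝ :=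
    Matrix.of fun i j => (P.emb ((A none * mM M B) i j)).re with hE
  have hEE : cR E = cE P (A none * mM M B) := by
    ext i j
    rw [cR_apply, cE_apply, hE, Matrix.of_apply]
    have h1 : Rt P none ((A none * mM M B) i j) :=
      Rt.mulM hnone _ _ (hRt none hnone) (fun a b => Rt.int P (B a b)) i j
    apply Complex.ext
    · rw [Complex.ofReal_re]
    · rw [Complex.ofReal_im, h1.real]
  set G : Matrix (Fin N) (Fin N) ℝ := D' * E with hG
  have hcG : cR G = cR D' * cE P (A none * mM M B) := by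
    rw [hG, map_mul, hEE]
  have hABdet : (A none * mM M B).det ≠ 0 := by
    rw [Matrix.det_mul, mM_det]
    exact mul_ne_zero hA0 (by exact_mod_cast hB0)
  have hGdet : G.det ≠ 0 := by
    intro h0
    have h1 : (cR G).det = 0 := by rw [cR_det, h0]; simp
    rw [hcG, Matrix.det_mul, cE_det, cR_det, hD', Matrix.det_diagonal] at h1
    rcases mul_eq_zero.1 h1 with h2 | h2
    · have h3 : (∏ i, (s none i)⁻¹) = 0 := by exact_mod_cast h2
      exact Finset.prod_ne_zero_iff.2 (fun i _ => inv_ne_zero (hs0 i).ne') h3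
    · exact hABdet ((map_eq_zero P.emb).1 h2)
  obtain ⟨W, lam, hW, hlam, hmono, hle, hinv⟩ := hR G hGdet
  -- the inverse of `W`
  have hWW : W * W⁻¹ = 1 := Matrix.mul_nonsing_inv _ hW
  have hWinvQ : (mM M W)⁻¹ = mM M W⁻¹ := by
    apply Matrix.inv_eq_right_inv
    rw [← mM_mul, hWW, mM_one]
  have hBW0 : (B * W).det ≠ 0 := by
    rw [Matrix.det_mul]
    exact mul_ne_zero hB0 hW.ne_zero
  have hABW : ∀ v, A v * mM M (B * W) = (A v * mM M B) * mM M W := fun v => by
    rw [mM_mul, Matrix.mul_assoc]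
  have hGW : cR (G * mR W) = cR D' * cE P (A none * mM M (B * W)) := by
    rw [hABW, map_mul cR G, map_mul (cE P) (A none * mM M B), hcG, cE_mM, Matrix.mul_assoc]
  have hABWdet : (A none * mM M (B * W)).det ≠ 0 := by
    rw [Matrix.det_mul, mM_det]
    exact mul_ne_zero hA0 (by exact_mod_cast hBW0)
  have hWR : (mR W).det ≠ 0 := by
    have h1 : (mR W).det = ((W.det : ℤ) : ℝ) := by rw [Int.cast_det]
    rw [h1]
    exact_mod_cast hW.ne_zero
  have hGWdet : (G * mR W).det ≠ 0 := by
    rw [Matrix.det_mul]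
    exact mul_ne_zero hGdet hWR
  have hGWinv : cR (G * mR W)⁻¹ = cE P (A none * mM M (B * W))⁻¹ * cR D := by
    rw [← cR_inv _ hGWdet]
    apply Matrix.inv_eq_left_inv
    rw [hGW, Matrix.mul_assoc, ← Matrix.mul_assoc (cR D) (cR D'), ← map_mul cR D D', hDD2,
      map_one, Matrix.one_mul, ← map_mul (cE P),
      Matrix.nonsing_inv_mul _ (isUnit_iff_ne_zero.2 hABWdet), map_one]
  refine ⟨B * W, lam, ?_⟩
  refine ⟨hBW0, ?_, hlam, hmono, ?_, ?_, ?_, ?_, ?_⟩
  · intro q hq hd
    rw [Matrix.det_mul] at hd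
    have hqq : Prime (q : ℤ) := Nat.prime_iff_prime_int.1 hq
    rcases hqq.dvd_or_dvd hd with h | h
    · exact hBS q hq h
    · exact absurd (isUnit_of_dvd_unit h hW) hqq.not_isUnit
  · intro p hp i k
    rw [hABW, Matrix.mul_apply]
    refine P.sum_ult hp _ _ _ (hs _ (hmem p hp) i).le ?_
    intro l _
    rw [P.mul _ (hmem p hp)]
    calc P.nv (some p) ((A (some p) * mM M B) i l) * P.nv (some p) (mM M W l k)
        ≤ s (some p) i * 1 := mul_le_mul (hBle p hp i l) (P.int_le hAV hS hp (W l k)) (P.nn _ _)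
          (hs _ (hmem p hp) i).le
      _ = _ := mul_one _
  · intro p hp k i
    rw [hABW, Matrix.mul_inv_rev, hWinvQ, Matrix.mul_apply]
    have hsp := hs _ (hmem p hp) i
    have h3 : P.nv (some p) (∑ l, mM M W⁻¹ k l * (A (some p) * mM M B)⁻¹ l i) ≤
        C1 / s (some p) i := by
      refine P.sum_ult hp _ _ _ (by positivity) ?_
      intro l _
      rw [P.mul _ (hmem p hp)]
      have h2 : P.nv (some p) ((A (some p) * mM M B)⁻¹ l i) ≤ C1 / s (some p) i := by
        rw [le_div_iff₀ hsp]; exact hBinv p hp l i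
      calc P.nv (some p) (mM M W⁻¹ k l) * P.nv (some p) ((A (some p) * mM M B)⁻¹ l i)
          ≤ 1 * (C1 / s (some p) i) := mul_le_mul (P.int_le hAV hS hp (W⁻¹ k l)) h2 (P.nn _ _)
            zero_le_one
        _ = _ := one_mul _
    calc _ ≤ C1 / s (some p) i * s (some p) i := mul_le_mul_of_nonneg_right h3 hsp.le
      _ = C1 := by field_simp
      _ ≤ _ := le_max_left _ _
  · intro i k
    have h1 := hle i k
    have h0 : |(G * mR W) i k| = ‖cR (G * mR W) i k‖ := by
      rw [cR_apply, Complex.norm_real, Real.norm_eq_abs]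
    have h0' : ‖cR (G * mR W) i k‖ =
        (s none i)⁻¹ * P.nv none ((A none * mM M (B * W)) i k) := by
      rw [hGW, Matrix.mul_apply, Finset.sum_eq_single i]
      · rw [norm_mul, cR_apply, cE_apply, hD', Matrix.diagonal_apply_eq, Complex.norm_real,
          Real.norm_eq_abs, abs_of_pos (inv_pos.2 (hs0 i)), P.inf]
      · intro b _ hb
        rw [cR_apply, hD', Matrix.diagonal_apply_ne _ (Ne.symm hb)]
        simp
      · intro h; exact absurd (Finset.mem_univ _) h
    rw [h0, h0', inv_mul_le_iff₀ (hs0 i)] at h1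
    calc _ ≤ s none i * (C2 * lam k) := h1
      _ = C2 * s none i * lam k := by ring
      _ ≤ _ := by
        apply mul_le_mul_of_nonneg_right _ (hlam k).le
        exact mul_le_mul_of_nonneg_right (le_max_right _ _) (hs0 i).le
  · intro k i
    have h1 := hinv k i
    have h0 : |(G * mR W)⁻¹ k i| = ‖cR (G * mR W)⁻¹ k i‖ := by
      rw [cR_apply, Complex.norm_real, Real.norm_eq_abs]
    have h0' : ‖cR (G * mR W)⁻¹ k i‖ =
        P.nv none ((A none * mM M (B * W))⁻¹ k i) * s none i := by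
      rw [hGWinv, Matrix.mul_apply, Finset.sum_eq_single i]
      · rw [norm_mul, cR_apply, cE_apply, hD, Matrix.diagonal_apply_eq, Complex.norm_real,
          Real.norm_eq_abs, abs_of_pos (hs0 i), P.inf]
      · intro b _ hb
        rw [cR_apply, hD, Matrix.diagonal_apply_ne _ hb]
        simp
      · intro h; exact absurd (Finset.mem_univ _) h
    rw [h0, h0', le_div_iff₀ (hlam k)] at h1
    calc _ = P.nv none ((A none * mM M (B * W))⁻¹ k i) * s none i * lam k := by ring
      _ ≤ C2 := h1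
      _ ≤ _ := le_max_right _ _
  · intro x hx
    obtain ⟨z, hz⟩ := hBx x hx
    refine ⟨W⁻¹.mulVec z, ?_⟩
    rw [Matrix.mulVec_mulVec, Matrix.mul_assoc, hWW, Matrix.mul_one]
    exact hz

end Pool.Agent.Helper97.SUBK
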