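import Pool.Agent.Helper77.SUBK.SheetP
import Pool.Agent.Helper97.SUB.BOX

/-!
Project SUBK (captain helper77): row BOXM, the new box of Davenport's lemma with coefficients in a
number field.
-/

set_option autoImplicit false

namespace Pool.Agent.Helper97.SUBK

open Finset Matrix Pool.Agent.Helper70.SUB Pool.Agent.Helper77.SUBK
open Pool.Agent.Helper97.SUB (none_mem some_mem prod_plc tl tl_lt tl_of_lt tl_mono tl_le prod_tl last_le)

/-- a nonzero integral vector is not small (no Liouville inequality is needed) -/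
theorem notsmall {S : Finset ℕ} {M : Type} [Field M] [NumberField M] (P : PF S M) (n : ℕ)
    (A : Matrix (Fin n) (Fin n) M) (hA : A.det ≠ 0) :
    ∃ D : ℝ, 1 ≤ D ∧ ∀ x : Fin n → ℤ, x ≠ 0 → ∃ i, 1 ≤ D * P.nv none (A.mulVec (cM x) i) := by
  have hn : none ∈ plc S := mem_none
  set D : ℝ := 1 + ∑ i, ∑ k, P.nv none (A⁻¹ i k) with hD
  have hs : ∀ i, ∑ k, P.nv none (A⁻¹ i k) ≤ ∑ i, ∑ k, P.nv none (A⁻¹ i k) := fun i =>
    Finset.single_le_sum (f := fun i => ∑ k, P.nv none (A⁻¹ i k))
      (fun i _ => Finset.sum_nonneg fun k _ => P.nn _ _) (Finset.mem_univ i)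
  have h0 : 0 ≤ ∑ i, ∑ k, P.nv none (A⁻¹ i k) :=
    Finset.sum_nonneg fun i _ => Finset.sum_nonneg fun k _ => P.nn _ _
  have hD1 : 1 ≤ D := by rw [hD]; linarith
  refine ⟨D, hD1, fun x hx => ?_⟩
  by_contra hcon
  push Not at hcon
  obtain ⟨i, hi⟩ := Function.ne_iff.mp hx
  have h1 : cM x i = ∑ k, A⁻¹ i k * A.mulVec (cM x) k := by
    have h2 : A⁻¹.mulVec (A.mulVec (cM x)) = cM x := by
      rw [Matrix.mulVec_mulVec, Matrix.nonsing_inv_mul _ (isUnit_iff_ne_zero.mpr hA),
        Matrix.one_mulVec]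
    calc cM x i = A⁻¹.mulVec (A.mulVec (cM x)) i := by rw [h2]
      _ = _ := rfl
  have h3 : P.nv none (cM x i : M) = |(x i : ℝ)| := by
    show P.nv none ((x i : ℤ) : M) = _
    rw [P.intCast hn]
    simp [av]
  have h4 : (1 : ℝ) ≤ |(x i : ℝ)| := by
    have h5 : (1 : ℤ) ≤ |x i| := Int.one_le_abs hi
    have : ((1 : ℤ) : ℝ) ≤ ((|x i| : ℤ) : ℝ) := by exact_mod_cast h5
    rw [Int.cast_abs] at this
    simpa using this
  have h5 : P.nv none (cM x i : M) * D ≤ ∑ k, P.nv none (A⁻¹ i k) := by
    rw [h1]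
    calc P.nv none (∑ k, A⁻¹ i k * A.mulVec (cM x) k) * D
        ≤ (∑ k, P.nv none (A⁻¹ i k * A.mulVec (cM x) k)) * D :=
          mul_le_mul_of_nonneg_right (P.sum_le hn _ _) (by linarith)
      _ = ∑ k, P.nv none (A⁻¹ i k) * (D * P.nv none (A.mulVec (cM x) k)) := by
          rw [Finset.sum_mul]
          refine Finset.sum_congr rfl fun k _ => ?_
          rw [P.mul none hn]
          ring
      _ ≤ ∑ k, P.nv none (A⁻¹ i k) := by
          refine Finset.sum_le_sum fun k _ => ?_
          calc P.nv none (A⁻¹ i k) * (D * P.nv none (A.mulVec (cM x) k))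
              ≤ P.nv none (A⁻¹ i k) * 1 := mul_le_mul_of_nonneg_left (hcon k).le (P.nn _ _)
            _ = _ := mul_one _
  rw [h3] at h5
  have h6 := hs i
  have h7 : D ≤ |(x i : ℝ)| * D := by nlinarith
  rw [hD] at h7 h5
  linarith

theorem BOXM (hAV : ST_AV) (hVOL : ST_VOLM) (hDAV : ST_DAV) : ST_BOXM := by
  intro M _ _ S P k A C a δ hk hS hA hRt hC ha hδ
  obtain ⟨CV, hCV1, hCV⟩ := hVOL M S P (k + 1) A C hS hA hC
  obtain ⟨CD, hCD1, hCD⟩ := hDAV (k + 1) C hC
  obtain ⟨D, hD1, hD⟩ := notsmall P (k + 1) (A none) (hA none (none_mem S))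
  set V : ℝ := ((plc S).card : ℝ) with hV
  have hV0 : 0 ≤ V := Nat.cast_nonneg _
  set a1 : ℝ := a + 1 with ha1
  set a2 : ℝ := 1 + a * ((k + 1) * V) + a1 * (k + 1) with ha2
  set aa : ℝ := δ + a + a2 with haa
  have ha1pos : 0 < a1 := by rw [ha1]; linarith
  have hk0 : (0 : ℝ) ≤ k := Nat.cast_nonneg _
  have haKV : 0 ≤ a * ((k + 1) * V) := by positivity
  have ha12 : a1 ≤ a2 := by rw [ha2]; nlinarith
  have ha2pos : 0 < a2 := lt_of_lt_of_le ha1pos ha12
  refine ⟨max CV CD, aa, max (max (C * D) CV) ((CD * CD + 1) ^ (1 / δ)),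
    le_trans hCV1 (le_max_left _ _), by rw [haa]; linarith, ?_⟩
  intro Q s h B lam hQ hs hB hh hgap
  have hQ1 : C * D ≤ Q := le_trans (le_trans (le_max_left _ _) (le_max_left _ _)) hQ
  have hQ2 : CV ≤ Q := le_trans (le_trans (le_max_right _ _) (le_max_left _ _)) hQ
  have hQ3 : (CD * CD + 1) ^ (1 / δ) ≤ Q := le_trans (le_max_right _ _) hQ
  have hQge : 1 ≤ Q := hCV1.trans hQ2
  have hQpos : 0 < Q := by linarith
  have hCpos : 0 < C := by linarith
  have hDpos : 0 < D := by linarith
  have hspos : ∀ v ∈ plc S, ∀ i, 0 < s v i := fun v hv i =>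
    lt_of_lt_of_le (Real.rpow_pos_of_pos hQpos _) (hs v hv i).1
  have hn := none_mem S
  have hlp := hB.pos
  obtain ⟨hV1, hV2⟩ := hCV s B lam hspos hB
  -- the gap beats the constant of Davenport's lemma
  have hQδ : CD * CD < Q ^ δ := by
    have h1 : ((CD * CD + 1) ^ (1 / δ)) ^ δ ≤ Q ^ δ :=
      Real.rpow_le_rpow (Real.rpow_nonneg (by positivity) _) hQ3 hδ.le
    rw [← Real.rpow_mul (by positivity), one_div, inv_mul_cancel₀ hδ.ne', Real.rpow_one] at h1
    linarith
  -- lower bound for the first minimum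
  have hB0 : (fun i => B i 0) ≠ 0 := by
    intro h0
    exact hB.det_ne (Matrix.det_eq_zero_of_column_eq_zero 0 fun i => congrFun h0 i)
  have hlam0 : Q ^ (-a1) ≤ lam 0 := by
    obtain ⟨i, hi⟩ := hD (fun i => B i 0) hB0
    have h1 : (A none).mulVec (cM fun i => B i 0) i = (A none * mM M B) i 0 := by
      simp [Matrix.mulVec, dotProduct, Matrix.mul_apply, cM]
    rw [h1] at hi
    have h2 := hB.inf_le i 0
    have h3 := (hs none hn i).2
    have h4 : 1 ≤ D * (C * Q ^ a * lam 0) := by
      refine hi.trans (mul_le_mul_of_nonneg_left (h2.trans ?_) hDpos.le)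
      exact mul_le_mul_of_nonneg_right (mul_le_mul_of_nonneg_left h3 hCpos.le) (hlp 0).le
    have h5 : 1 ≤ Q ^ a1 * lam 0 := by
      calc 1 ≤ D * (C * Q ^ a * lam 0) := h4
        _ = (C * D) * (Q ^ a * lam 0) := by ring
        _ ≤ Q * (Q ^ a * lam 0) := mul_le_mul_of_nonneg_right hQ1
            (mul_nonneg (Real.rpow_nonneg hQpos.le _) (hlp 0).le)
        _ = Q ^ a1 * lam 0 := by rw [ha1, Real.rpow_add hQpos, Real.rpow_one]; ring
    rw [Real.rpow_neg hQpos.le, inv_le_iff_one_le_mul₀ (Real.rpow_pos_of_pos hQpos _), mul_comm]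
    exact h5
  have hlamlo : ∀ l, Q ^ (-a1) ≤ lam l := fun l => hlam0.trans (hB.mono (Fin.zero_le l))
  -- upper bound for the last minimum
  have hprods : Q ^ (-(a * ((k + 1) * V))) ≤ ∏ v ∈ plc S, ∏ i, s v i := by
    have h1 : ∏ v ∈ plc S, ∏ _i : Fin (k + 1), Q ^ (-a) ≤ ∏ v ∈ plc S, ∏ i, s v i := by
      refine Finset.prod_le_prod (fun v _ => Finset.prod_nonneg fun i _ =>
        Real.rpow_nonneg hQpos.le _) fun v hv => ?_
      exact Finset.prod_le_prod (fun i _ => Real.rpow_nonneg hQpos.le _) fun i _ => (hs v hv i).1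
    refine le_trans (le_of_eq ?_) h1
    rw [Finset.prod_const, Finset.prod_const, ← pow_mul, ← Real.rpow_natCast, ← Real.rpow_mul
      hQpos.le]
    congr 1
    simp only [Finset.card_univ, Fintype.card_fin]
    push_cast
    rw [hV]
    ring
  have hprodpos : 0 < ∏ v ∈ plc S, ∏ i, s v i :=
    Finset.prod_pos fun v hv => Finset.prod_pos fun i _ => hspos v hv i
  have hprodlam : ∏ l, lam l ≤ Q * Q ^ (a * ((k + 1) * V)) := by
    have h1 : ∏ l, lam l ≤ CV / ∏ v ∈ plc S, ∏ i, s v i := by
      rw [le_div_iff₀ hprodpos, mul_comm]; exact hV2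
    refine h1.trans ?_
    have h2 : CV / ∏ v ∈ plc S, ∏ i, s v i ≤ CV / Q ^ (-(a * ((k + 1) * V))) :=
      div_le_div_of_nonneg_left (by linarith) (Real.rpow_pos_of_pos hQpos _) hprods
    refine h2.trans ?_
    rw [Real.rpow_neg hQpos.le, div_inv_eq_mul]
    exact mul_le_mul_of_nonneg_right hQ2 (Real.rpow_nonneg hQpos.le _)
  have hlast : lam (Fin.last k) ≤ Q ^ a2 := by
    have h1 := last_le lam hlp (Q ^ (-a1)) _ (Real.rpow_pos_of_pos hQpos _) hlamlo hprodlam
    refine h1.trans ?_
    have h2 : 1 / Q ^ (-a1) = Q ^ a1 := by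
      rw [Real.rpow_neg hQpos.le, one_div, inv_inv]
    rw [h2, ← Real.rpow_natCast, ← Real.rpow_mul hQpos.le]
    calc Q * Q ^ (a * ((k + 1) * V)) * Q ^ (a1 * (k : ℝ))
        = Q ^ (1 + a * ((k + 1) * V) + a1 * (k : ℝ)) := by
          rw [Real.rpow_add hQpos, Real.rpow_add hQpos, Real.rpow_one]
      _ ≤ Q ^ a2 := Real.rpow_le_rpow_of_exponent_le hQge (by rw [ha2]; nlinarith)
  have hlamup : ∀ l, lam l ≤ Q ^ a2 := fun l => (hB.mono (Fin.le_last l)).trans hlast
  have hlamlo2 : ∀ l, Q ^ (-a2) ≤ lam l := fun l =>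
    (Real.rpow_le_rpow_of_exponent_le hQge (by linarith)).trans (hlamlo l)
  -- Davenport's lemma
  have hAB : (A none * mM M B).det ≠ 0 := by
    rw [Matrix.det_mul]
    refine mul_ne_zero (hA none hn) ?_
    rw [mM_det]
    exact_mod_cast hB.det_ne
  set X : Matrix (Fin (k + 1)) (Fin (k + 1)) M := A none * mM M B with hX
  have hXR : ∀ i l, Rt P none (X i l) := fun i l =>
    Rt.mulM hn _ _ (hRt none hn) (fun i j => Rt.int P _) i l
  have hXR' : ∀ i l, Rt P none (X⁻¹ i l) := fun i l => Rt.invM hn _ hXR i l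
  have hre : ∀ y : M, Rt P none y → P.emb y = (((P.emb y).re : ℝ) : ℂ) := by
    intro y hy
    apply Complex.ext
    · rw [Complex.ofReal_re]
    · rw [Complex.ofReal_im]; exact hy.real
  have hnv : ∀ y : M, Rt P none y → P.nv none y = |(P.emb y).re| := by
    intro y hy
    rw [P.inf, hre y hy, Complex.norm_real, Real.norm_eq_abs, Complex.ofReal_re]
  set G : Matrix (Fin (k + 1)) (Fin (k + 1)) ℝ := Matrix.of fun i l => (P.emb (X i l)).re with hG
  set G' : Matrix (Fin (k + 1)) (Fin (k + 1)) ℝ :=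
    Matrix.of fun i l => (P.emb (X⁻¹ i l)).re with hG'
  have hGG : G' * G = 1 := by
    ext l l'
    have h1 : (((G' * G) l l' : ℝ) : ℂ) = P.emb ((X⁻¹ * X) l l') := by
      rw [Matrix.mul_apply, Matrix.mul_apply, map_sum, Complex.ofReal_sum]
      refine Finset.sum_congr rfl fun i _ => ?_
      rw [map_mul, Complex.ofReal_mul, hre _ (hXR' l i), hre _ (hXR i l')]
      rfl
    rw [Matrix.nonsing_inv_mul _ (isUnit_iff_ne_zero.mpr hAB), Matrix.one_apply] at h1
    rw [Matrix.one_apply]
    split_ifs at h1 ⊢ with h2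
    · rw [map_one] at h1
      exact_mod_cast h1
    · rw [map_zero] at h1
      exact_mod_cast h1
  have hGdet : G.det ≠ 0 := by
    intro h0
    have := congrArg Matrix.det hGG
    rw [Matrix.det_mul, h0, mul_zero, Matrix.det_one] at this
    exact zero_ne_one this
  have hGinv : ∀ l i, (G⁻¹) l i = (P.emb (X⁻¹ l i)).re := by
    have h4 : G⁻¹ = G' := Matrix.inv_eq_left_inv hGG
    intro l i
    rw [h4, hG', Matrix.of_apply]
  set U : Matrix (Fin (k + 1)) (Fin (k + 1)) ℝ :=
    Matrix.of fun i l => G i l / (s none i * lam l) with hU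
  have hsn : ∀ i, 0 < s none i := hspos none hn
  set U' : Matrix (Fin (k + 1)) (Fin (k + 1)) ℝ :=
    Matrix.of fun l i => lam l * (G⁻¹) l i * s none i with hU'
  have hUU : U' * U = 1 := by
    have h1 : G⁻¹ * G = 1 := Matrix.nonsing_inv_mul _ (isUnit_iff_ne_zero.mpr hGdet)
    ext l l'
    have h2 : (U' * U) l l' = lam l * (G⁻¹ * G) l l' / lam l' := by
      simp only [Matrix.mul_apply, hU, hU', Matrix.of_apply]
      rw [Finset.mul_sum, Finset.sum_div]
      refine Finset.sum_congr rfl fun i _ => ?_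
      have := (hsn i).ne'
      have := (hlp l').ne'
      field_simp
    rw [h2, h1, Matrix.one_apply]
    split_ifs with h3
    · rw [h3, mul_one, div_self (hlp l').ne']
    · simp
  have hUinv : U⁻¹ = U' := Matrix.inv_eq_left_inv hUU
  have hUdet : U.det ≠ 0 := by
    intro h0
    have := congrArg Matrix.det hUU
    rw [Matrix.det_mul, h0, mul_zero, Matrix.det_one] at this
    exact zero_ne_one this
  have hUle : ∀ i j, |U i j| ≤ C := by
    intro i j
    have h1 := hB.inf_le i j
    rw [← hX, hnv _ (hXR i j)] at h1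
    have h2 : |U i j| = |G i j| / (s none i * lam j) := by
      rw [hU, Matrix.of_apply, abs_div, abs_of_pos (mul_pos (hsn i) (hlp j))]
    rw [h2, div_le_iff₀ (mul_pos (hsn i) (hlp j))]
    calc |G i j| = |(P.emb (X i j)).re| := rfl
      _ ≤ C * s none i * lam j := h1
      _ = C * (s none i * lam j) := by ring
  have hUile : ∀ i j, |(U⁻¹) i j| ≤ C := by
    intro l i
    have h1 := hB.inf_inv l i
    rw [← hX, hnv _ (hXR' l i)] at h1
    rw [hUinv, hU', Matrix.of_apply, hGinv, abs_mul, abs_mul, abs_of_pos (hlp l),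
      abs_of_pos (hsn i)]
    calc lam l * |(P.emb (X⁻¹ l i)).re| * s none i
        = |(P.emb (X⁻¹ l i)).re| * (lam l * s none i) := by ring
      _ ≤ C := h1
  set rho : Fin (k + 1) → ℝ := fun l => (lam (tl hk l))⁻¹ with hrho
  have hrhopos : ∀ l, 0 < rho l := fun l => inv_pos.mpr (hlp _)
  have hanti : Antitone rho := by
    intro l l' hl
    exact inv_anti₀ (hlp _) (hB.mono (tl_mono hk hl))
  have hmono : Monotone (fun l => rho l * lam l) := by
    intro l l' hl
    show rho l * lam l ≤ rho l' * lam l'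
    have hge : ∀ l, 1 ≤ rho l * lam l := by
      intro l
      rw [hrho]
      show 1 ≤ (lam (tl hk l))⁻¹ * lam l
      rw [inv_mul_eq_div, one_le_div (hlp _)]
      exact hB.mono (tl_le hk l)
    by_cases h1 : (l : ℕ) < k
    · have h2 : rho l * lam l = 1 := by
        rw [hrho]
        show (lam (tl hk l))⁻¹ * lam l = 1
        rw [tl_of_lt hk l h1, inv_mul_cancel₀ (hlp l).ne']
      rw [h2]
      exact hge l'
    · have h2 : l = l' := by
        apply Fin.ext
        have h3 : (l : ℕ) ≤ l' := hl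
        have h4 := l'.isLt
        omega
      rw [h2]
  obtain ⟨π, W, hW, hW1, hW2⟩ := hCD U lam rho hUdet hUle hUile hlp hrhopos hB.mono hanti hmono
  have hrl : ∀ b : Fin (k + 1), (b : ℕ) < k → rho b * lam b = 1 := by
    intro b hb
    rw [hrho]
    show (lam (tl hk b))⁻¹ * lam b = 1
    rw [tl_of_lt hk b hb, inv_mul_cancel₀ (hlp b).ne']
  have hM : ∀ (i : Fin (k + 1)) (b : Fin k),
      rho (π i) * |∑ l, U i l * lam l * (W l b.castSucc : ℝ)| ≤ CD := by
    intro i b
    have h1 := hW2 i b.castSucc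
    rw [hrl b.castSucc (by simp), mul_one] at h1
    exact h1
  have hWlast : ∀ b : Fin k, W (Fin.last k) b.castSucc = 0 := by
    intro b
    by_contra hne
    obtain ⟨i, hi⟩ := hW1 (fun l => W l b.castSucc) (Fin.last k) hne
    have h1 : rho (Fin.last k) * lam (Fin.last k) ≤ CD * CD :=
      hi.trans (mul_le_mul_of_nonneg_left (hM i b) (by linarith))
    have h2 : Q ^ δ ≤ rho (Fin.last k) * lam (Fin.last k) := by
      have h3 := hgap (tl hk (Fin.last k)) (tl_lt hk _)
      rw [hrho]
      show Q ^ δ ≤ (lam (tl hk (Fin.last k)))⁻¹ * lam (Fin.last k)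
      rw [inv_mul_eq_div, le_div_iff₀ (hlp _)]
      calc Q ^ δ * lam (tl hk (Fin.last k)) ≤ Q ^ δ * (Q ^ (-δ) * lam (Fin.last k)) :=
            mul_le_mul_of_nonneg_left h3 (Real.rpow_nonneg hQpos.le _)
        _ = (Q ^ δ * Q ^ (-δ)) * lam (Fin.last k) := by ring
        _ = lam (Fin.last k) := by
            rw [← Real.rpow_add hQpos, add_neg_cancel, Real.rpow_zero, one_mul]
    linarith
  -- the vectors and the scales
  have hfac : 0 < Q ^ (δ / (k + 1)) := Real.rpow_pos_of_pos hQpos _
  refine ⟨fun v i => if v = none then Q ^ (δ / (k + 1)) * s none i * lam (tl hk (π i)) else s v i,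
    fun b i => (B * W) i b.castSucc, ?_, ?_, ?_, ?_, ?_⟩
  · intro v hv i
    have hsv := hs v hv i
    by_cases hvn : v = none
    · subst hvn
      simp only [if_true]
      have h1 : Q ^ (0 : ℝ) ≤ Q ^ (δ / (k + 1)) :=
        Real.rpow_le_rpow_of_exponent_le hQge (by positivity)
      have h2 : Q ^ (δ / (k + 1)) ≤ Q ^ δ := by
        refine Real.rpow_le_rpow_of_exponent_le hQge ?_
        rw [div_le_iff₀ (by positivity)]
        nlinarith
      constructor
      · calc Q ^ (-aa) ≤ Q ^ (0 + -a + -a2) :=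
              Real.rpow_le_rpow_of_exponent_le hQge (by rw [haa]; linarith)
          _ = Q ^ (0 : ℝ) * Q ^ (-a) * Q ^ (-a2) := by
              rw [Real.rpow_add hQpos, Real.rpow_add hQpos]
          _ ≤ Q ^ (δ / (k + 1)) * s none i * lam (tl hk (π i)) := by
              refine mul_le_mul (mul_le_mul h1 hsv.1 (Real.rpow_nonneg hQpos.le _) hfac.le)
                (hlamlo2 _) (Real.rpow_nonneg hQpos.le _) (mul_nonneg hfac.le (hsn i).le)
      · calc Q ^ (δ / (k + 1)) * s none i * lam (tl hk (π i)) ≤ Q ^ δ * Q ^ a * Q ^ a2 := by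
              refine mul_le_mul (mul_le_mul h2 hsv.2 (hsn i).le (Real.rpow_nonneg hQpos.le _))
                (hlamup _) (hlp _).le (mul_nonneg (Real.rpow_nonneg hQpos.le _)
                  (Real.rpow_nonneg hQpos.le _))
          _ = Q ^ aa := by
              rw [haa, Real.rpow_add hQpos (δ + a) a2, Real.rpow_add hQpos δ a]
    · simp only [if_neg hvn]
      refine ⟨(Real.rpow_le_rpow_of_exponent_le hQge ?_).trans hsv.1,
        hsv.2.trans (Real.rpow_le_rpow_of_exponent_le hQge ?_)⟩ <;> rw [haa] <;> linarith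
  · have h1 : ∏ v ∈ plc S, ∏ i, (if v = none then Q ^ (δ / (k + 1)) * s none i * lam (tl hk (π i))
        else s v i) = (∏ v ∈ plc S, ∏ i, s v i) * (Q ^ δ * ∏ l, lam (tl hk l)) := by
      rw [prod_plc, prod_plc]
      have h2 : ∀ p ∈ S, ∏ i, (if (some p : Option ℕ) = none then
          Q ^ (δ / (k + 1)) * s none i * lam (tl hk (π i)) else s (some p) i)
          = ∏ i, s (some p) i := by
        intro p _
        refine Finset.prod_congr rfl fun i _ => ?_
        rw [if_neg (by simp)]
      rw [Finset.prod_congr rfl h2]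
      have h3 : ∏ i, (if (none : Option ℕ) = none then
          Q ^ (δ / (k + 1)) * s none i * lam (tl hk (π i)) else s none i)
          = Q ^ δ * (∏ i, s none i) * ∏ l, lam (tl hk l) := by
        simp only [if_true]
        rw [Finset.prod_mul_distrib, Finset.prod_mul_distrib, Finset.prod_const,
          Equiv.prod_comp π (fun l => lam (tl hk l)), ← Real.rpow_natCast, ← Real.rpow_mul
          hQpos.le]
        congr 3
        simp only [Finset.card_univ, Fintype.card_fin]
        push_cast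
        field_simp
      rw [h3]
      ring
    rw [h1, prod_tl hk lam hlp]
    have h4 : Q ^ δ * (lam (tl hk (Fin.last k)) / lam (Fin.last k)) ≤ 1 := by
      have h3 := hgap (tl hk (Fin.last k)) (tl_lt hk _)
      rw [← mul_div_assoc, div_le_one (hlp _)]
      calc Q ^ δ * lam (tl hk (Fin.last k)) ≤ Q ^ δ * (Q ^ (-δ) * lam (Fin.last k)) :=
            mul_le_mul_of_nonneg_left h3 (Real.rpow_nonneg hQpos.le _)
        _ = (Q ^ δ * Q ^ (-δ)) * lam (Fin.last k) := by ring
        _ = lam (Fin.last k) := by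
            rw [← Real.rpow_add hQpos, add_neg_cancel, Real.rpow_zero, one_mul]
    have h5 : 0 ≤ (∏ v ∈ plc S, ∏ i, s v i) * ∏ l, lam l :=
      mul_nonneg hprodpos.le (Finset.prod_nonneg fun l _ => (hlp l).le)
    calc (∏ v ∈ plc S, ∏ i, s v i) * (Q ^ δ * ((∏ l, lam l) *
          (lam (tl hk (Fin.last k)) / lam (Fin.last k))))
        = ((∏ v ∈ plc S, ∏ i, s v i) * ∏ l, lam l) *
          (Q ^ δ * (lam (tl hk (Fin.last k)) / lam (Fin.last k))) := by ring
      _ ≤ ((∏ v ∈ plc S, ∏ i, s v i) * ∏ l, lam l) * 1 := mul_le_mul_of_nonneg_left h4 h5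
      _ ≤ CV := by rw [mul_one]; exact hV2
      _ ≤ max CV CD := le_max_left _ _
  · -- linear independence
    have hdet : (mQ (B * W)).det ≠ 0 := by
      have h1 : (mQ (B * W)).det = (((B * W).det : ℤ) : ℚ) := by
        have := (Int.castRingHom ℚ).map_det (B * W)
        simpa [mQ, RingHom.mapMatrix_apply] using this.symm
      rw [h1, Matrix.det_mul]
      have h2 : W.det ≠ 0 := hW.ne_zero
      exact_mod_cast mul_ne_zero hB.det_ne h2
    have h1 : LinearIndependent ℚ (fun b : Fin (k + 1) => (mQ (B * W)).col b) :=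
      Matrix.linearIndependent_cols_iff_isUnit.mpr
        ((Matrix.isUnit_iff_isUnit_det _).mpr (isUnit_iff_ne_zero.mpr hdet))
    have h2 := h1.comp (fun b : Fin k => b.castSucc) (Fin.castSucc_injective k)
    exact h2
  · intro b
    have h1 : ∑ i, h i * (B * W) i b.castSucc = ∑ l, (∑ i, h i * B i l) * W l b.castSucc := by
      simp only [Matrix.mul_apply, Finset.mul_sum, Finset.sum_mul]
      rw [Finset.sum_comm]
      refine Finset.sum_congr rfl fun l _ => Finset.sum_congr rfl fun i _ => by ring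
    rw [h1, Fin.sum_univ_castSucc, hWlast b, mul_zero, add_zero]
    refine Finset.sum_eq_zero fun l _ => ?_
    rw [hh l.castSucc (by simp), zero_mul]
  · intro v hv b i
    have hmul : (A v).mulVec (cM fun i => (B * W) i b.castSucc) i
        = ∑ l, (A v * mM M B) i l * (W l b.castSucc : M) := by
      have h1 : (cM fun i => (B * W) i b.castSucc : Fin (k + 1) → M)
          = (mM M B).mulVec (cM fun l => W l b.castSucc) := by
        funext i'
        simp [cM, Matrix.mulVec, dotProduct, Matrix.mul_apply]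
      rw [h1, Matrix.mulVec_mulVec]
      rfl
    by_cases hvn : v = none
    · subst hvn
      simp only [if_true]
      rw [hmul, ← hX]
      have h0 : P.nv none (∑ l, X i l * (W l b.castSucc : M))
          = |∑ l, G i l * (W l b.castSucc : ℝ)| := by
        have h00 : P.emb (∑ l, X i l * (W l b.castSucc : M))
            = ((∑ l, G i l * (W l b.castSucc : ℝ) : ℝ) : ℂ) := by
          rw [map_sum, Complex.ofReal_sum]
          refine Finset.sum_congr rfl fun l _ => ?_
          rw [map_mul, map_intCast, Complex.ofReal_mul, Complex.ofReal_intCast, hre _ (hXR i l)]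
          rfl
        rw [P.inf, h00, Complex.norm_real, Real.norm_eq_abs]
      have h1 : ∑ l, G i l * (W l b.castSucc : ℝ)
          = s none i * ∑ l, U i l * lam l * (W l b.castSucc : ℝ) := by
        rw [Finset.mul_sum]
        refine Finset.sum_congr rfl fun l _ => ?_
        have h2 : U i l = G i l / (s none i * lam l) := rfl
        rw [h2]
        have := (hsn i).ne'
        have := (hlp l).ne'
        field_simp
      rw [h0, h1, abs_mul, abs_of_pos (hsn i)]
      have h3 := hM i b
      have h4 : |∑ l, U i l * lam l * (W l b.castSucc : ℝ)| ≤ CD * lam (tl hk (π i)) := by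
        have h5 : rho (π i) = (lam (tl hk (π i)))⁻¹ := rfl
        rw [h5, inv_mul_eq_div, div_le_iff₀ (hlp _)] at h3
        exact h3
      have h6 : Q ^ (δ / (k + 1)) * Q ^ (-(δ / (k + 1))) = 1 := by
        rw [← Real.rpow_add hQpos, add_neg_cancel, Real.rpow_zero]
      calc s none i * |∑ l, U i l * lam l * (W l b.castSucc : ℝ)|
          ≤ s none i * (CD * lam (tl hk (π i))) := mul_le_mul_of_nonneg_left h4 (hsn i).le
        _ = CD * (s none i * lam (tl hk (π i))) * 1 := by ring
        _ = CD * (s none i * lam (tl hk (π i))) * (Q ^ (δ / (k + 1)) * Q ^ (-(δ / (k + 1)))) := by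
            rw [h6]
        _ ≤ max CV CD * (s none i * lam (tl hk (π i))) *
            (Q ^ (δ / (k + 1)) * Q ^ (-(δ / (k + 1)))) := by
            refine mul_le_mul_of_nonneg_right (mul_le_mul_of_nonneg_right (le_max_right _ _)
              (mul_nonneg (hsn i).le (hlp _).le)) (by rw [h6]; exact zero_le_one)
        _ = max CV CD * (Q ^ (δ / (k + 1)) * s none i * lam (tl hk (π i))) *
            Q ^ (-(δ / (k + 1))) := by ring
    · obtain ⟨p, hp, rfl⟩ : ∃ p, p ∈ S ∧ v = some p := by
        cases v with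
        | none => exact absurd rfl hvn
        | some p => exact ⟨p, Finset.some_mem_insertNone.mp hv, rfl⟩
      simp only [if_neg hvn]
      rw [hmul, mul_one]
      have hspi := hspos (some p) hv i
      have h1 := P.sum_ult hp Finset.univ
        (fun l => (A (some p) * mM M B) i l * (W l b.castSucc : M)) (s (some p) i) hspi.le
        (fun l _ => by
          rw [P.mul (some p) hv]
          calc P.nv (some p) ((A (some p) * mM M B) i l) * P.nv (some p) (W l b.castSucc : M)
              ≤ s (some p) i * 1 := mul_le_mul (hB.fin_le p hp i l) (P.int_le hAV hS hp _)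
                (P.nn _ _) hspi.le
            _ = s (some p) i := mul_one _)
      refine h1.trans ?_
      have h2 : (1 : ℝ) ≤ max CV CD := le_trans hCV1 (le_max_left _ _)
      nlinarith

end Pool.Agent.Helper97.SUBK
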